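import Pool.Agent.H798.BV.Stm3
import Pool.Agent.H798.BV.Elem

set_option autoImplicit false

/-!
# (B1Q) upper bound of the Bregman distance of `|z|^p`, `2 ≤ p`

The lemmas `norm_sub_sq'`, `chi_mul_re`, `re_conj_mul_le`, `le_re_conj_mul`, `rpow_sub_two` are those of helper798
(`H798/BV/Elem.lean`); the reduction to the one variable inequality follows helper122 (`H122/BV/B1p.lean`).
-/

namespace Pool.Agent.H294.BV

open Pool.Agent.H798.BV Set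

lemma nrm {p t ρ : ℝ} (h2 : 2 ≤ p) (ht : 0 < t) (hρ : -t ≤ ρ) (hρ1 : ρ ≤ t) :
    (1 - 2 * ρ + t ^ 2) ^ (p / 2) ≤
      1 - p * ρ + (5 * p ^ 2 + (2 * p + 1) ^ p) * (t ^ 2 + t ^ p) := by
  have hx : 0 ≤ 1 - 2 * ρ + t ^ 2 := by nlinarith [sq_nonneg (1 - t)]
  obtain ⟨P, hP⟩ : ∃ P, P = (2 * p + 1) ^ p := ⟨_, rfl⟩
  obtain ⟨T, hT⟩ : ∃ T, T = t ^ p := ⟨_, rfl⟩
  have hP0 : 0 < P := by rw [hP]; positivity
  have hT0 : 0 < T := by rw [hT]; positivity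
  rcases le_total (2 * p * t) 1 with h | h
  · obtain ⟨y, hy⟩ : ∃ y, y = (-2 * ρ + t ^ 2) * (p / 2) := ⟨_, rfl⟩
    have k1 : (1 - 2 * ρ + t ^ 2) ^ (p / 2) ≤ Real.exp y := by
      rw [hy, Real.exp_mul]
      refine Real.rpow_le_rpow hx ?_ (by linarith)
      have := Real.add_one_le_exp (-2 * ρ + t ^ 2)
      linarith
    have ht1 : t ≤ 1 := by nlinarith
    have ht2 : t ^ 2 ≤ t := by nlinarith
    have e1 : y = -(p * ρ) + p * t ^ 2 / 2 := by rw [hy]; ring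
    have m1 : p * ρ ≤ p * t := mul_le_mul_of_nonneg_left hρ1 (by linarith)
    have m2 : p * (-t) ≤ p * ρ := mul_le_mul_of_nonneg_left hρ (by linarith)
    have m3 : p * t ^ 2 ≤ p * t := mul_le_mul_of_nonneg_left ht2 (by linarith)
    have m4 : 0 ≤ p * t ^ 2 := by positivity
    have k2 : |y| ≤ 2 * p * t := by
      rw [abs_le, e1]
      constructor <;> linarith
    have k3 : |y| ≤ 1 := k2.trans h
    have k5 : Real.exp y ≤ 1 + y + y ^ 2 := by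
      have := (abs_le.1 (Real.abs_exp_sub_one_sub_id_le k3)).2
      linarith
    have k6 : y ^ 2 ≤ (2 * p * t) ^ 2 := by
      rw [← sq_abs y]
      exact pow_le_pow_left₀ (abs_nonneg _) k2 2
    rw [← hP, ← hT]
    have k7 : p * t ^ 2 / 2 ≤ p ^ 2 * t ^ 2 := by nlinarith [sq_nonneg t]
    have k8 : 0 ≤ P * (t ^ 2 + T) + 5 * p ^ 2 * T := by positivity
    calc (1 - 2 * ρ + t ^ 2) ^ (p / 2) ≤ 1 + y + y ^ 2 := k1.trans k5
      _ ≤ 1 + (-(p * ρ) + p * t ^ 2 / 2) + (2 * p * t) ^ 2 := by rw [← e1]; linarith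
      _ ≤ 1 - p * ρ + 5 * p ^ 2 * t ^ 2 := by nlinarith
      _ ≤ 1 - p * ρ + (5 * p ^ 2 + P) * (t ^ 2 + T) := by nlinarith
  · have k1 : (1 - 2 * ρ + t ^ 2) ^ (p / 2) ≤ P * T := by
      have k2 : 1 - 2 * ρ + t ^ 2 ≤ ((2 * p + 1) * t) ^ 2 := by
        have : (1 + t) ^ 2 ≤ ((2 * p + 1) * t) ^ 2 :=
          pow_le_pow_left₀ (by linarith) (by linarith) 2
        nlinarith
      calc (1 - 2 * ρ + t ^ 2) ^ (p / 2) ≤ (((2 * p + 1) * t) ^ 2) ^ (p / 2) :=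
            Real.rpow_le_rpow hx k2 (by linarith)
        _ = ((2 * p + 1) * t) ^ p := by
            rw [← Real.rpow_natCast, ← Real.rpow_mul (by positivity)]
            congr 1
            push_cast
            ring
        _ = P * T := by rw [Real.mul_rpow (by linarith) ht.le, hP, hT]
    rw [← hP, ← hT]
    have m1 : p * ρ ≤ p * t := mul_le_mul_of_nonneg_left hρ1 (by linarith)
    have k3 : 0 ≤ 1 - p * t + p ^ 2 * t ^ 2 / 4 := by nlinarith [sq_nonneg (1 - p * t / 2)]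
    have k4 : 0 ≤ P * t ^ 2 + 5 * p ^ 2 * T + 19 / 4 * p ^ 2 * t ^ 2 := by positivity
    nlinarith

theorem t_B1Q : S_B1Q := by
  intro p h2
  refine ⟨5 * p ^ 2 + (2 * p + 1) ^ p, by positivity, ?_⟩
  intro z c
  obtain ⟨K, hK⟩ : ∃ K, K = 5 * p ^ 2 + (2 * p + 1) ^ p := ⟨_, rfl⟩
  have hK1 : 1 ≤ K := by
    have : 0 ≤ (2 * p + 1) ^ p := by positivity
    nlinarith
  rw [chi_mul_re, ← hK]
  rcases eq_or_ne c 0 with rfl | hc
  · have hp0 : (0 : ℝ) ^ p = 0 := Real.zero_rpow (by linarith)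
    simp [hp0]
  have hc0 : 0 < ‖c‖ := norm_pos_iff.2 hc
  rcases eq_or_ne z 0 with rfl | hz
  · have hp0 : (0 : ℝ) ^ p = 0 := Real.zero_rpow (by linarith)
    have k2 : 0 ≤ ‖c‖ ^ p := by positivity
    have k4 : ‖c‖ ^ p ≤ K * ‖c‖ ^ p := by nlinarith
    have k5 : 0 ≤ K * (‖(0 : ℂ)‖ ^ (p - 2) * ‖c‖ ^ 2) := by positivity
    simp only [zero_sub, norm_neg, map_zero, zero_mul, Complex.zero_re, mul_zero, sub_zero]
    have k6 : ‖(0 : ℂ)‖ ^ p = 0 := by rw [norm_zero, hp0]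
    rw [k6]
    linarith
  have hz0 : 0 < ‖z‖ := norm_pos_iff.2 hz
  obtain ⟨R, hR⟩ : ∃ R, R = ((starRingEnd ℂ) z * c).re := ⟨_, rfl⟩
  rw [← hR]
  obtain ⟨t, ht⟩ : ∃ t, t = ‖c‖ / ‖z‖ := ⟨_, rfl⟩
  obtain ⟨ρ, hρ⟩ : ∃ ρ, ρ = R / ‖z‖ ^ 2 := ⟨_, rfl⟩
  have ht0 : 0 < t := by rw [ht]; positivity
  have k1 : -t ≤ ρ := by
    have := le_re_conj_mul z c
    rw [← hR] at this
    rw [hρ, ht, le_div_iff₀ (by positivity)]
    have e : -(‖c‖ / ‖z‖) * ‖z‖ ^ 2 = -(‖z‖ * ‖c‖) := by field_simp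
    rw [e]
    exact this
  have k2 : ρ ≤ t := by
    have := re_conj_mul_le z c
    rw [← hR] at this
    rw [hρ, ht, div_le_iff₀ (by positivity)]
    have e : ‖c‖ / ‖z‖ * ‖z‖ ^ 2 = ‖z‖ * ‖c‖ := by field_simp
    rw [e]
    exact this
  have hn := nrm h2 ht0 k1 k2
  rw [← hK] at hn
  have e0 : ‖z - c‖ ^ 2 = ‖z‖ ^ 2 * (1 - 2 * ρ + t ^ 2) := by
    rw [norm_sub_sq', ← hR, hρ, ht]
    field_simp
  have hx : 0 ≤ 1 - 2 * ρ + t ^ 2 := by nlinarith [sq_nonneg (1 - t)]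
  have e1 : ‖z - c‖ ^ p = ‖z‖ ^ p * (1 - 2 * ρ + t ^ 2) ^ (p / 2) := by
    have e2 : ‖z - c‖ ^ p = (‖z - c‖ ^ 2) ^ (p / 2) := by
      rw [← Real.rpow_natCast, ← Real.rpow_mul (norm_nonneg _)]; congr 1; push_cast; ring
    rw [e2, e0, Real.mul_rpow (by positivity) hx]
    congr 1
    rw [← Real.rpow_natCast, ← Real.rpow_mul (norm_nonneg _)]; congr 1; push_cast; ring
  have e3 : ‖z‖ ^ p * ρ = ‖z‖ ^ (p - 2) * R := by
    rw [← rpow_sub_two hz0 p, hρ]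
    field_simp
  have e4 : ‖z‖ ^ p * t ^ 2 = ‖z‖ ^ (p - 2) * ‖c‖ ^ 2 := by
    rw [← rpow_sub_two hz0 p, ht]
    field_simp
  have e5 : ‖z‖ ^ p * t ^ p = ‖c‖ ^ p := by
    rw [← Real.mul_rpow hz0.le ht0.le, ht]
    congr 1
    field_simp
  rw [e1]
  calc ‖z‖ ^ p * (1 - 2 * ρ + t ^ 2) ^ (p / 2)
      ≤ ‖z‖ ^ p * (1 - p * ρ + K * (t ^ 2 + t ^ p)) :=
        mul_le_mul_of_nonneg_left hn (by positivity)
    _ = ‖z‖ ^ p - p * (‖z‖ ^ p * ρ) + K * (‖z‖ ^ p * t ^ 2 + ‖z‖ ^ p * t ^ p) := by ring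
    _ = _ := by rw [e3, e4, e5]

end Pool.Agent.H294.BV
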