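import Mathlib
import Pool.Agent.H798.BV.Stm5

/-!
# MP_172a45_an (helper798), piece YY (helper294)
-/

set_option autoImplicit false

namespace Pool.Agent.H294.BV

open Pool.Agent.H798.BV

theorem yy_re_div (z : ℂ) (m : ℕ) : (z / (m : ℂ)).re = z.re / m := by
  rw [← Complex.ofReal_natCast, Complex.div_ofReal_re]

theorem yy_im_div (z : ℂ) (m : ℕ) : (z / (m : ℂ)).im = z.im / m := by
  rw [← Complex.ofReal_natCast, Complex.div_ofReal_im]

theorem yy_q (z : ℂ) (a : ℝ) (h : ‖1 - (a : ℂ) * z‖ ≤ ‖z‖) :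
    0 ≤ ‖z‖ + a * z.re - 1 ∧ a ^ 2 * z.im ^ 2 ≤ 2 * ‖z‖ * (‖z‖ + a * z.re - 1) := by
  have hre : (1 - (a : ℂ) * z).re = 1 - a * z.re := by simp
  have him : (1 - (a : ℂ) * z).im = -(a * z.im) := by simp
  have h1 : 1 - a * z.re ≤ ‖z‖ := by
    have := (Complex.re_le_norm (1 - (a : ℂ) * z)).trans h
    rwa [hre] at this
  have h2 : (1 - a * z.re) ^ 2 + (a * z.im) ^ 2 ≤ ‖z‖ ^ 2 := by
    have h3 : ‖1 - (a : ℂ) * z‖ ^ 2 = (1 - a * z.re) ^ 2 + (a * z.im) ^ 2 := by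
      rw [← Complex.normSq_eq_norm_sq, Complex.normSq_apply, hre, him]
      ring
    rw [← h3]
    exact pow_le_pow_left₀ (norm_nonneg _) h 2
  refine ⟨by linarith, ?_⟩
  nlinarith [sq_nonneg (‖z‖ - (1 - a * z.re))]

theorem t_YY : S_YY := by
  intro r₀ r ι hr₀ hr₀r hr hι
  set L : ℝ := 2 / (1 - r) with hL
  have hr0 : 0 < r := hr₀.trans_le hr₀r
  have hL2 : 2 ≤ L := by
    rw [hL, le_div_iff₀ (by linarith)]
    linarith
  have hL0 : 0 < L := by linarith
  set η : ℝ := min (1 / 80) (ι ^ 2 / (4 * L)) with hη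
  have hη0 : 0 < η := lt_min (by norm_num) (by positivity)
  have hη1 : η ≤ 1 / 80 := min_le_left _ _
  have hη2 : η ≤ ι ^ 2 / (4 * L) := min_le_right _ _
  refine ⟨min (1 / 10) (r₀ ^ 2 / (2 * L) * η), lt_min (by norm_num) (by positivity),
    (min_le_left _ _).trans (by norm_num), ?_⟩
  intro m l a hm hr₀a har hl1 hl2 hsum hb hs
  set ε : ℝ := min (1 / 10) (r₀ ^ 2 / (2 * L) * η) with hε
  have hε1 : ε ≤ 1 / 10 := min_le_left _ _
  have hε2 : ε ≤ r₀ ^ 2 / (2 * L) * η := min_le_right _ _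
  have hM : (0 : ℝ) < m := by exact_mod_cast hm
  set A := Finset.univ.filter (fun k => ¬ L < ‖l k‖) with hA
  set B := Finset.univ.filter (fun k => L < ‖l k‖) with hB
  have ha0 : 0 < a := hr₀.trans_le hr₀a
  have ha1 : a ≤ 1 := by linarith
  -- the sums
  have hsR : (sR L l).re = (∑ k ∈ A, (l k).re) / m := by
    show ((∑ k ∈ A, l k) / (m : ℂ)).re = _
    rw [yy_re_div, Complex.re_sum]
  have hyRr : (yR L l).re = (∑ k ∈ A, ((l k).re ^ 2 - (l k).im ^ 2)) / m := by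
    show ((∑ k ∈ A, l k ^ 2) / (m : ℂ)).re = _
    rw [yy_re_div, Complex.re_sum]
    congr 1
    refine Finset.sum_congr rfl fun k _ => ?_
    rw [pow_two, Complex.mul_re]
    ring
  have hyRi : (yR L l).im = (∑ k ∈ A, (2 * (l k).re * (l k).im)) / m := by
    show ((∑ k ∈ A, l k ^ 2) / (m : ℂ)).im = _
    rw [yy_im_div, Complex.im_sum]
    congr 1
    refine Finset.sum_congr rfl fun k _ => ?_
    rw [pow_two, Complex.mul_im]
    ring
  have hbB : bB L l = (∑ k ∈ B, ‖l k‖) / m := rfl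
  set Sx : ℝ := ∑ k ∈ A, (l k).re with hSx
  have hSB : ∑ k ∈ B, ‖l k‖ ≤ Sx := by
    rw [hbB, hsR] at hb
    exact (div_le_div_iff_of_pos_right hM).1 hb
  have hSB0 : 0 ≤ ∑ k ∈ B, ‖l k‖ := Finset.sum_nonneg fun k _ => norm_nonneg _
  have hSx1 : Sx ≤ m * ε := by
    have h1 := (Complex.re_le_norm (sR L l)).trans hs
    rw [hsR, div_le_iff₀ hM] at h1
    linarith
  have hcardB : (B.card : ℝ) ≤ ∑ k ∈ B, ‖l k‖ := by
    rw [Finset.card_eq_sum_ones]
    push_cast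
    refine Finset.sum_le_sum fun k hk => ?_
    have := (Finset.mem_filter.1 hk).2
    linarith
  have hcard : (B.card : ℝ) + A.card = m := by
    have h1 := Finset.card_filter_add_card_filter_not (s := (Finset.univ : Finset (Fin m)))
      (fun k => L < ‖l k‖)
    rw [Finset.card_univ, Fintype.card_fin] at h1
    exact_mod_cast h1
  have hsplit : ∑ k ∈ B, ‖l k‖ + ∑ k ∈ A, ‖l k‖ = ∑ k, ‖l k‖ :=
    Finset.sum_filter_add_sum_filter_not _ _ _
  have hq : ∑ k ∈ A, (‖l k‖ + a * (l k).re - 1) ≤ m * ε := by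
    rw [Finset.sum_sub_distrib, Finset.sum_add_distrib, ← Finset.mul_sum, Finset.sum_const,
      nsmul_eq_mul, mul_one]
    have h1 : a * Sx ≤ Sx := by
      have : 0 ≤ Sx := hSB0.trans hSB
      nlinarith
    have h2 : a * ∑ k ∈ A, (l k).re = a * Sx := rfl
    rw [h2]
    linarith
  have hy : ∑ k ∈ A, (l k).im ^ 2 ≤ m * η := by
    have h1 : ∑ k ∈ A, r₀ ^ 2 * (l k).im ^ 2 ≤ ∑ k ∈ A, 2 * L * (‖l k‖ + a * (l k).re - 1) := by
      refine Finset.sum_le_sum fun k hk => ?_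
      have hk' : ‖l k‖ ≤ L := not_lt.1 (Finset.mem_filter.1 hk).2
      obtain ⟨h2, h3⟩ := yy_q (l k) a (hl1 k)
      have h4 : r₀ ^ 2 * (l k).im ^ 2 ≤ a ^ 2 * (l k).im ^ 2 :=
        mul_le_mul_of_nonneg_right (pow_le_pow_left₀ hr₀.le hr₀a 2) (sq_nonneg _)
      have h5 : 2 * ‖l k‖ * (‖l k‖ + a * (l k).re - 1) ≤ 2 * L * (‖l k‖ + a * (l k).re - 1) :=
        mul_le_mul_of_nonneg_right (by linarith) h2
      linarith
    rw [← Finset.mul_sum, ← Finset.mul_sum] at h1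
    have h2 : 2 * L * ∑ k ∈ A, (‖l k‖ + a * (l k).re - 1) ≤ 2 * L * (m * ε) :=
      mul_le_mul_of_nonneg_left hq (by positivity)
    have h3 : 2 * L * (m * ε) ≤ r₀ ^ 2 * (m * η) := by
      have h4 : 2 * L * (m * ε) ≤ 2 * L * (m * (r₀ ^ 2 / (2 * L) * η)) := by
        refine mul_le_mul_of_nonneg_left (mul_le_mul_of_nonneg_left hε2 hM.le) (by positivity)
      refine h4.trans (le_of_eq ?_)
      field_simp
    have h5 : r₀ ^ 2 * ∑ k ∈ A, (l k).im ^ 2 ≤ r₀ ^ 2 * (m * η) := h1.trans (h2.trans h3)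
    exact le_of_mul_le_mul_left h5 (by positivity)
  have hN : ∀ k, ‖l k‖ ^ 2 = (l k).re ^ 2 + (l k).im ^ 2 := by
    intro k
    rw [← Complex.normSq_eq_norm_sq, Complex.normSq_apply]
    ring
  constructor
  · rw [hyRr, le_div_iff₀ hM]
    have h1 : ∑ k ∈ A, ((1 : ℝ) / 4 - 2 * (l k).im ^ 2) ≤ ∑ k ∈ A, ((l k).re ^ 2 - (l k).im ^ 2) := by
      refine Finset.sum_le_sum fun k _ => ?_
      have h2 := hN k
      have h3 : (1 / 2 : ℝ) ^ 2 ≤ ‖l k‖ ^ 2 := pow_le_pow_left₀ (by norm_num) (hl2 k) 2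
      nlinarith
    rw [Finset.sum_sub_distrib, ← Finset.mul_sum, Finset.sum_const, nsmul_eq_mul] at h1
    have h4 : (B.card : ℝ) ≤ m * ε := hcardB.trans (hSB.trans hSx1)
    have h5 : (m : ℝ) * ε ≤ m * (1 / 10) := mul_le_mul_of_nonneg_left hε1 hM.le
    have h6 : (m : ℝ) * η ≤ m * (1 / 80) := mul_le_mul_of_nonneg_left hη1 hM.le
    have h7 : (A.card : ℝ) = m - B.card := by linarith
    rw [h7] at h1
    nlinarith
  · rw [hyRi, abs_div, abs_of_pos hM, div_le_iff₀ hM]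
    have hc : 0 < ι / (2 * L) := by positivity
    have h1 : |∑ k ∈ A, (2 * (l k).re * (l k).im)| ≤
        ∑ k ∈ A, (ι / (2 * L) * (l k).re ^ 2 + (2 * L / ι) * (l k).im ^ 2) := by
      refine (Finset.abs_sum_le_sum_abs _ _).trans (Finset.sum_le_sum fun k _ => ?_)
      have h2 : ι / (2 * L) * (2 * L / ι) = 1 := by field_simp
      have h3 : 0 ≤ ι / (2 * L) * (|(l k).re| - 2 * L / ι * |(l k).im|) ^ 2 := by positivity
      have h4 : ι / (2 * L) * (|(l k).re| - 2 * L / ι * |(l k).im|) ^ 2 =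
          ι / (2 * L) * (l k).re ^ 2 - 2 * (ι / (2 * L) * (2 * L / ι)) * (|(l k).re| * |(l k).im|) +
            (ι / (2 * L) * (2 * L / ι)) * (2 * L / ι) * (l k).im ^ 2 := by
        rw [← sq_abs (l k).re, ← sq_abs (l k).im]
        ring
      rw [h4, h2] at h3
      have h5 : |2 * (l k).re * (l k).im| = 2 * (|(l k).re| * |(l k).im|) := by
        rw [abs_mul, abs_mul, abs_two]
        ring
      rw [h5]
      linarith
    refine h1.trans ?_
    rw [Finset.sum_add_distrib, ← Finset.mul_sum, ← Finset.mul_sum]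
    have h6 : ∑ k ∈ A, (l k).re ^ 2 ≤ L * m := by
      have h7 : ∑ k ∈ A, (l k).re ^ 2 ≤ ∑ k ∈ A, L * ‖l k‖ := by
        refine Finset.sum_le_sum fun k hk => ?_
        have hk' : ‖l k‖ ≤ L := not_lt.1 (Finset.mem_filter.1 hk).2
        have h8 := hN k
        have h9 : ‖l k‖ ^ 2 ≤ L * ‖l k‖ := by
          rw [pow_two]
          exact mul_le_mul_of_nonneg_right hk' (norm_nonneg _)
        nlinarith [sq_nonneg (l k).im]
      rw [← Finset.mul_sum] at h7
      refine h7.trans (mul_le_mul_of_nonneg_left ?_ hL0.le)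
      linarith
    have h7 : ι / (2 * L) * ∑ k ∈ A, (l k).re ^ 2 ≤ ι / 2 * m := by
      refine (mul_le_mul_of_nonneg_left h6 hc.le).trans (le_of_eq ?_)
      field_simp
    have h8 : 2 * L / ι * ∑ k ∈ A, (l k).im ^ 2 ≤ ι / 2 * m := by
      have h9 : (m : ℝ) * η ≤ m * (ι ^ 2 / (4 * L)) := mul_le_mul_of_nonneg_left hη2 hM.le
      refine (mul_le_mul_of_nonneg_left (hy.trans h9) (by positivity)).trans (le_of_eq ?_)
      field_simp
      ring
    linarith

end Pool.Agent.H294.BV
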